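import Mathlib

/-!
# Consequences of an expansion: rate of convergence of the ratios, real sequences
-/

set_option autoImplicit false

namespace Pool.Agent.J6H61.VC

open Finset Filter Topology
open scoped Real

/-- the expansions (`Pool.Agent.W719.AX.EXY`) -/
def Exy (a : ℕ → ℂ) (v : ℂ) (y : ℕ → ℂ) : Prop := ∀ K : ℕ, ∃ C : ℝ, ∀ᶠ N : ℕ in atTop,
  ‖a N / (((Real.sqrt N) ^ 3 : ℝ) * Complex.exp (N * v)) -
    ∑ k ∈ range K, y k / (N : ℂ) ^ k‖ ≤ C / (N : ℝ) ^ K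

lemma log_bound {N : ℕ} (hN : 1 ≤ N) :
    |3 / 2 * (Real.log (N + 2) - Real.log N) - 3 / N| ≤ 3 / (N : ℝ) ^ 2 := by
  have h0 : (0 : ℝ) < N := by exact_mod_cast hN
  set x : ℝ := 2 / N with hx
  have hx0 : 0 < x := by positivity
  have e1 : Real.log (N + 2) - Real.log N = Real.log (1 + x) := by
    rw [← Real.log_div (by positivity) h0.ne']
    congr 1
    rw [hx]
    field_simp
  have e2 : (3 : ℝ) / N = 3 / 2 * x := by
    rw [hx]
    field_simp
  have e3 : (3 : ℝ) / (N : ℝ) ^ 2 = 3 / 4 * x ^ 2 := by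
    rw [hx]
    field_simp
    norm_num
  have h1 : Real.log (1 + x) ≤ x := by
    have := Real.log_le_sub_one_of_pos (show (0 : ℝ) < 1 + x by positivity)
    linarith
  have h2 : 2 * x / (x + 2) ≤ Real.log (1 + x) := Real.le_log_one_add_of_nonneg hx0.le
  have h3 : x - x ^ 2 / 2 ≤ 2 * x / (x + 2) := by
    rw [le_div_iff₀ (by positivity)]
    nlinarith [pow_pos hx0 3]
  rw [e1, e2, e3, abs_le]
  constructor
  · nlinarith
  · nlinarith [sq_nonneg x]

/-- the normalised sequence -/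
noncomputable def nrm (a : ℕ → ℂ) (v : ℂ) (N : ℕ) : ℂ :=
  a N / (((Real.sqrt N) ^ 3 : ℝ) * Complex.exp (N * v))

lemma nrm_tendsto {a : ℕ → ℂ} {v : ℂ} {y : ℕ → ℂ} (h : Exy a v y) :
    Tendsto (nrm a v) atTop (𝓝 (y 0)) := by
  obtain ⟨C, hC⟩ := h 1
  rw [tendsto_iff_norm_sub_tendsto_zero]
  refine squeeze_zero' (Eventually.of_forall fun _ => norm_nonneg _) (hC.mono fun N hN => ?_)
    (tendsto_const_div_atTop_nhds_zero_nat C)
  rw [Finset.sum_range_one, pow_zero, div_one, pow_one] at hN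
  exact hN

lemma sqrt_cube_ne {N : ℕ} (hN : 1 ≤ N) : (((Real.sqrt N) ^ 3 : ℝ) : ℂ) ≠ 0 := by
  have h0 : (0 : ℝ) < N := by exact_mod_cast hN
  have : (Real.sqrt N) ^ 3 ≠ 0 := pow_ne_zero _ (Real.sqrt_pos.2 h0).ne'
  exact_mod_cast this

lemma eq_nrm {a : ℕ → ℂ} (v : ℂ) {N : ℕ} (hN : 1 ≤ N) :
    a N = ((Real.sqrt N) ^ 3 : ℝ) * Complex.exp (N * v) * nrm a v N := by
  unfold nrm
  rw [mul_div_cancel₀ _ (mul_ne_zero (sqrt_cube_ne hN) (Complex.exp_ne_zero _))]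

lemma ev_ne {a : ℕ → ℂ} {v : ℂ} {y : ℕ → ℂ} (hy : y 0 ≠ 0) (h : Exy a v y) :
    ∀ᶠ N : ℕ in atTop, a N ≠ 0 := by
  filter_upwards [(nrm_tendsto h).eventually_ne hy, eventually_ge_atTop 1] with N h1 h2
  rw [eq_nrm (a := a) v h2]
  exact mul_ne_zero (mul_ne_zero (sqrt_cube_ne h2) (Complex.exp_ne_zero _)) h1

/-- the quotients of the normalised sequence -/
lemma nrm_ratio {a : ℕ → ℂ} {v : ℂ} {y : ℕ → ℂ} (hy : y 0 ≠ 0) (h : Exy a v y) :
    ∃ B : ℝ, 0 < B ∧ ∀ᶠ N : ℕ in atTop, nrm a v N ≠ 0 ∧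
      ‖nrm a v (N + 2) / nrm a v N - 1‖ ≤ B / (N : ℝ) ^ 2 := by
  obtain ⟨C, hC⟩ := h 2
  have hy' : 0 < ‖y 0‖ := norm_pos_iff.2 hy
  set A : ℝ := 2 * |C| + 2 * ‖y 1‖ + 1 with hA
  have hA0 : 0 < A := by positivity
  refine ⟨A / (‖y 0‖ / 2), by positivity, ?_⟩
  have hlow : ∀ᶠ N : ℕ in atTop, ‖y 0‖ / 2 < ‖nrm a v N‖ :=
    (nrm_tendsto h).norm.eventually_const_lt (by linarith)
  filter_upwards [hC, (tendsto_add_atTop_nat 2).eventually hC, hlow, eventually_ge_atTop 1]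
    with N h1 h2 h3 h4
  have hN0 : (0 : ℝ) < N := by exact_mod_cast h4
  have hNc : (N : ℂ) ≠ 0 := by exact_mod_cast hN0.ne'
  have hN2 : ((N : ℂ) + 2) ≠ 0 := by
    have : ((N + 2 : ℕ) : ℂ) ≠ 0 := by exact_mod_cast (by omega : N + 2 ≠ 0)
    push_cast at this
    exact this
  have hne : nrm a v N ≠ 0 := by
    rw [← norm_pos_iff]
    linarith
  refine ⟨hne, ?_⟩
  change ‖nrm a v N - _‖ ≤ _ at h1
  change ‖nrm a v (N + 2) - _‖ ≤ _ at h2
  rw [sum_range_succ, sum_range_one] at h1 h2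
  simp only [pow_zero, div_one, pow_one] at h1 h2
  have hb1 : ‖nrm a v N - (y 0 + y 1 / (N : ℂ))‖ ≤ |C| / (N : ℝ) ^ 2 :=
    h1.trans (div_le_div_of_nonneg_right (le_abs_self C) (by positivity))
  have hb2 : ‖nrm a v (N + 2) - (y 0 + y 1 / ((N + 2 : ℕ) : ℂ))‖ ≤ |C| / (N : ℝ) ^ 2 := by
    refine h2.trans ?_
    calc C / (((N + 2 : ℕ) : ℝ)) ^ 2 ≤ |C| / (((N + 2 : ℕ) : ℝ)) ^ 2 :=
          div_le_div_of_nonneg_right (le_abs_self C) (by positivity)
      _ ≤ |C| / (N : ℝ) ^ 2 := by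
          refine div_le_div_of_nonneg_left (abs_nonneg C) (by positivity) ?_
          push_cast
          nlinarith
  have hb3 : ‖y 1 / ((N + 2 : ℕ) : ℂ) - y 1 / (N : ℂ)‖ ≤ 2 * ‖y 1‖ / (N : ℝ) ^ 2 := by
    have e : y 1 / ((N + 2 : ℕ) : ℂ) - y 1 / (N : ℂ) = -(2 * y 1) / ((N + 2) * N) := by
      push_cast
      field_simp
      ring
    rw [e, norm_div, norm_neg, norm_mul, norm_mul, Complex.norm_ofNat, Complex.norm_natCast]
    have e2 : ‖(N : ℂ) + 2‖ = (N : ℝ) + 2 := by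
      have : (N : ℂ) + 2 = ((N + 2 : ℕ) : ℂ) := by push_cast; rfl
      rw [this, Complex.norm_natCast]
      push_cast
      rfl
    rw [e2]
    refine div_le_div_of_nonneg_left (by positivity) (by positivity) ?_
    nlinarith
  have hd : ‖nrm a v (N + 2) - nrm a v N‖ ≤ A / (N : ℝ) ^ 2 := by
    have e : nrm a v (N + 2) - nrm a v N =
        (nrm a v (N + 2) - (y 0 + y 1 / ((N + 2 : ℕ) : ℂ))) -
        (nrm a v N - (y 0 + y 1 / (N : ℂ))) + (y 1 / ((N + 2 : ℕ) : ℂ) - y 1 / (N : ℂ)) := by ring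
    rw [e]
    calc _ ≤ ‖(nrm a v (N + 2) - (y 0 + y 1 / ((N + 2 : ℕ) : ℂ))) -
        (nrm a v N - (y 0 + y 1 / (N : ℂ)))‖ + ‖y 1 / ((N + 2 : ℕ) : ℂ) - y 1 / (N : ℂ)‖ :=
          norm_add_le _ _
      _ ≤ (|C| / (N : ℝ) ^ 2 + |C| / (N : ℝ) ^ 2) + 2 * ‖y 1‖ / (N : ℝ) ^ 2 :=
          add_le_add ((norm_sub_le _ _).trans (add_le_add hb2 hb1)) hb3
      _ = (2 * |C| + 2 * ‖y 1‖) / (N : ℝ) ^ 2 := by ring
      _ ≤ A / (N : ℝ) ^ 2 := div_le_div_of_nonneg_right (by linarith) (by positivity)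
  have e : nrm a v (N + 2) / nrm a v N - 1 = (nrm a v (N + 2) - nrm a v N) / nrm a v N := by
    field_simp
  rw [e, norm_div]
  calc ‖nrm a v (N + 2) - nrm a v N‖ / ‖nrm a v N‖ ≤ (A / (N : ℝ) ^ 2) / (‖y 0‖ / 2) :=
        div_le_div₀ (by positivity) hd (by positivity) h3.le
    _ = A / (‖y 0‖ / 2) / (N : ℝ) ^ 2 := by
        field_simp

/-- the rate of convergence of the ratios -/
theorem rate {a : ℕ → ℂ} {v : ℂ} {y : ℕ → ℂ} (hy : y 0 ≠ 0) (h : Exy a v y) :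
    ∃ B : ℝ, ∀ᶠ N : ℕ in atTop, ∃ l : ℂ, Complex.exp l = a (N + 2) / a N ∧
      ‖l - (2 * v + 3 / N)‖ ≤ B / (N : ℝ) ^ 2 := by
  obtain ⟨B, hB0, hB⟩ := nrm_ratio hy h
  have hsmall : ∀ᶠ N : ℕ in atTop, B / (N : ℝ) ^ 2 ≤ 1 / 2 := by
    have h1 : Tendsto (fun N : ℕ => B / (N : ℝ) ^ 2) atTop (𝓝 0) := by
      have h2 : Tendsto (fun N : ℕ => (N : ℝ) ^ 2) atTop atTop :=
        (tendsto_pow_atTop two_ne_zero).comp tendsto_natCast_atTop_atTop
      exact h2.const_div_atTop B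
    exact h1.eventually_le_const (by norm_num)
  refine ⟨3 + 3 / 2 * B, ?_⟩
  filter_upwards [hB, hsmall, (tendsto_add_atTop_nat 2).eventually hB, eventually_ge_atTop 1]
    with N h1 h2 h3 h4
  obtain ⟨hne, hr⟩ := h1
  have hN0 : (0 : ℝ) < N := by exact_mod_cast h4
  have hNc : (N : ℂ) ≠ 0 := by exact_mod_cast hN0.ne'
  set z : ℂ := nrm a v (N + 2) / nrm a v N - 1 with hz
  have hz1 : 1 + z = nrm a v (N + 2) / nrm a v N := by rw [hz]; ring
  have hz0 : 1 + z ≠ 0 := by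
    rw [hz1]
    exact div_ne_zero h3.1 hne
  have hlog : ‖Complex.log (1 + z)‖ ≤ 3 / 2 * ‖z‖ :=
    Complex.norm_log_one_add_half_le_self (hr.trans h2)
  refine ⟨2 * v + ((3 / 2 * (Real.log (N + 2) - Real.log N) : ℝ) : ℂ) + Complex.log (1 + z),
    ?_, ?_⟩
  · rw [Complex.exp_add, Complex.exp_add, Complex.exp_log hz0, hz1, ← Complex.ofReal_exp]
    have e1 : Real.exp (3 / 2 * (Real.log (N + 2) - Real.log N)) =
        Real.sqrt ((N + 2 : ℕ) : ℝ) ^ 3 / Real.sqrt N ^ 3 := by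
      have hN2 : (0 : ℝ) < ((N + 2 : ℕ) : ℝ) := by positivity
      have h5 : 3 / 2 * (Real.log (N + 2) - Real.log N) =
          (3 : ℕ) * Real.log (Real.sqrt ((N + 2 : ℕ) : ℝ)) - (3 : ℕ) * Real.log (Real.sqrt N) := by
        rw [Real.log_sqrt (Nat.cast_nonneg N), Real.log_sqrt (Nat.cast_nonneg _)]
        push_cast
        ring
      rw [h5, Real.exp_sub, Real.exp_nat_mul, Real.exp_nat_mul, Real.exp_log (Real.sqrt_pos.2 hN2),
        Real.exp_log (Real.sqrt_pos.2 hN0)]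
    rw [e1, eq_nrm (a := a) v h4, eq_nrm (a := a) v (show 1 ≤ N + 2 by omega)]
    have s1 := sqrt_cube_ne h4
    have s2 := sqrt_cube_ne (show 1 ≤ N + 2 by omega)
    have s3 := Complex.exp_ne_zero (N * v)
    have e2 : Complex.exp (((N + 2 : ℕ) : ℂ) * v) = Complex.exp (2 * v) * Complex.exp (N * v) := by
      rw [← Complex.exp_add]
      congr 1
      push_cast
      ring
    rw [e2]
    push_cast at s1 s2 ⊢
    field_simp
  · have e1 : 2 * v + ((3 / 2 * (Real.log (N + 2) - Real.log N) : ℝ) : ℂ) + Complex.log (1 + z) -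
        (2 * v + 3 / N) = ((3 / 2 * (Real.log (N + 2) - Real.log N) - 3 / N : ℝ) : ℂ) +
          Complex.log (1 + z) := by
      push_cast
      ring
    rw [e1]
    calc _ ≤ ‖((3 / 2 * (Real.log (N + 2) - Real.log N) - 3 / N : ℝ) : ℂ)‖ +
          ‖Complex.log (1 + z)‖ := norm_add_le _ _
      _ ≤ 3 / (N : ℝ) ^ 2 + 3 / 2 * (B / (N : ℝ) ^ 2) := by
          refine add_le_add ?_ (hlog.trans (mul_le_mul_of_nonneg_left hr (by norm_num)))
          rw [Complex.norm_real, Real.norm_eq_abs]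
          exact log_bound h4
      _ = (3 + 3 / 2 * B) / (N : ℝ) ^ 2 := by ring

/-- the growth of a sequence of real numbers -/
theorem im_growth {a : ℕ → ℂ} {v : ℂ} {y : ℕ → ℂ} (hy : y 0 ≠ 0) (h : Exy a v y)
    (hr : ∀ᶠ N : ℕ in atTop, (a N).im = 0) : ∃ k : ℤ, v.im = k * π := by
  have hlim : Tendsto (fun N : ℕ => a (N + 1) / a N) atTop (𝓝 (Complex.exp v)) := by
    have h1 : Tendsto (fun N : ℕ => nrm a v (N + 1) / nrm a v N) atTop (𝓝 1) := by
      have h2 := ((nrm_tendsto h).comp (tendsto_add_atTop_nat 1)).div (nrm_tendsto h) hy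
      rw [div_self hy] at h2
      exact h2
    have h3 : Tendsto (fun N : ℕ => ((Real.sqrt ((N + 1 : ℕ) : ℝ) / Real.sqrt N) ^ 3 : ℝ)) atTop
        (𝓝 1) := by
      have h4 : Tendsto (fun N : ℕ => (((N + 1 : ℕ) : ℝ) / N)) atTop (𝓝 1) := by
        have h5 : Tendsto (fun N : ℕ => 1 + 1 / (N : ℝ)) atTop (𝓝 (1 + 0)) :=
          tendsto_const_nhds.add tendsto_one_div_atTop_nhds_zero_nat
        rw [add_zero] at h5
        refine h5.congr' ?_
        filter_upwards [eventually_ge_atTop 1] with N hN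
        have : (N : ℝ) ≠ 0 := by
          have : N ≠ 0 := by omega
          exact_mod_cast this
        push_cast
        field_simp
      have h6 := (h4.sqrt).pow 3
      rw [Real.sqrt_one, one_pow] at h6
      refine h6.congr fun N => ?_
      rw [Real.sqrt_div' _ (Nat.cast_nonneg N)]
    have h7 := (((Complex.continuous_ofReal.tendsto _).comp h3).mul h1).const_mul (Complex.exp v)
    rw [Complex.ofReal_one, mul_one, mul_one] at h7
    refine h7.congr' ?_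
    filter_upwards [(nrm_tendsto h).eventually_ne hy, eventually_ge_atTop 1] with N h8 h9
    simp only [Function.comp]
    rw [eq_nrm (a := a) v h9, eq_nrm (a := a) v (show 1 ≤ N + 1 by omega)]
    have s1 := sqrt_cube_ne h9
    have s3 := Complex.exp_ne_zero (N * v)
    have e2 : Complex.exp (((N + 1 : ℕ) : ℂ) * v) = Complex.exp v * Complex.exp (N * v) := by
      rw [← Complex.exp_add]
      congr 1
      push_cast
      ring
    rw [e2, div_pow]
    push_cast at s1 ⊢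
    field_simp
  have him : (Complex.exp v).im = 0 := by
    have h1 := (Complex.continuous_im.tendsto _).comp hlim
    refine tendsto_nhds_unique h1 (tendsto_const_nhds.congr' ?_)
    filter_upwards [hr, (tendsto_add_atTop_nat 1).eventually hr] with N h2 h3
    simp only [Function.comp]
    rw [Complex.div_im, h2, h3]
    simp
  rw [Complex.exp_im] at him
  have hs : Real.sin v.im = 0 := by
    rcases mul_eq_zero.1 him with h1 | h1
    · exact absurd h1 (Real.exp_ne_zero _)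
    · exact h1
  obtain ⟨k, hk⟩ := Real.sin_eq_zero_iff.1 hs
  exact ⟨k, hk.symm⟩

/-- the coefficients of the expansion of a sequence of real numbers -/
theorem coeff_real {a : ℕ → ℂ} {v : ℂ} {y : ℕ → ℂ} (h : Exy a v y) {k : ℤ} (hk : v.im = k * π)
    (hr : ∀ᶠ N : ℕ in atTop, (a N).im = 0) (K : ℕ) : (y K).im = 0 := by
  have hn : ∀ᶠ N : ℕ in atTop, (nrm a v N).im = 0 := by
    filter_upwards [hr] with N h1
    have e : (N : ℂ) * v = ((N * v.re : ℝ) : ℂ) + (((k * N : ℤ) : ℂ)) * (π * Complex.I) := by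
      conv_lhs => rw [← Complex.re_add_im v, hk]
      push_cast
      ring
    have h2 : Complex.exp (N * v) = ((Real.exp (N * v.re) * (-1) ^ (k * N : ℤ) : ℝ) : ℂ) := by
      rw [e, Complex.exp_add, Complex.exp_int_mul, Complex.exp_pi_mul_I]
      push_cast
      rfl
    unfold nrm
    rw [h2, ← Complex.ofReal_mul, Complex.div_ofReal_im, h1, zero_div]
  induction K using Nat.strong_induction_on with
  | _ K ih =>
  obtain ⟨C, hC⟩ := h (K + 1)
  have h1 : ∀ᶠ N : ℕ in atTop, |(y K).im| ≤ C / N := by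
    filter_upwards [hC, hn, eventually_ge_atTop 1] with N h2 h3 h4
    have hN0 : (0 : ℝ) < N := by exact_mod_cast h4
    change ‖nrm a v N - _‖ ≤ _ at h2
    have h5 := (Complex.abs_im_le_norm _).trans h2
    have e1 : ∀ j : ℕ, (y j / (N : ℂ) ^ j).im = (y j).im / (N : ℝ) ^ j := by
      intro j
      have : (N : ℂ) ^ j = (((N : ℝ) ^ j : ℝ) : ℂ) := by push_cast; rfl
      rw [this, Complex.div_ofReal_im]
    rw [Complex.sub_im, h3, Complex.im_sum, sum_range_succ, e1,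
      sum_eq_zero (fun j hj => by rw [e1, ih j (mem_range.1 hj), zero_div]), zero_add, zero_sub,
      abs_neg, abs_div, abs_of_pos (pow_pos hN0 K), div_le_iff₀ (pow_pos hN0 K)] at h5
    refine h5.trans (le_of_eq ?_)
    rw [pow_succ]
    field_simp
  have h2 : Tendsto (fun N : ℕ => C / (N : ℝ)) atTop (𝓝 0) :=
    tendsto_const_div_atTop_nhds_zero_nat C
  have h3 : |(y K).im| ≤ 0 := ge_of_tendsto h2 h1
  exact abs_eq_zero.1 (le_antisymm h3 (abs_nonneg _))

end Pool.Agent.J6H61.VC
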