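import Pool.Agent.J6H61.VC.Dih
import Pool.Agent.J6H61.VC.Rate
import Pool.Agent.Y785.DR.Mird
import Pool.Agent.Y274.DX.Exdx
import Pool.Agent.Y100.DX.Axp
import Pool.Agent.Y481.DX.Axis
import Pool.Agent.Y482.DX.CvB

/-!
# Rings of trees whose cyclic sequence is carried to that of the mirror images by a rotation or a
reflection
-/

set_option autoImplicit false

namespace Pool.Agent.J6H61.VC

open Finset Filter Topology
open Pool.Agent.W711.HT hiding XX
open Pool.Agent.Y472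
open Pool.Agent.Y481.DR
open Pool.Agent.Y481.DX (pzD wsl nbl JA EA JX JX_eq)
open Pool.Agent.TH563.UV (Tb kb ngb)
open Pool.Agent.W719.AR (kp)
open Pool.Agent.W719.AX (EXY)
open Pool.Agent.Y482.DX (fr mir)
open Pool.Agent.Y785.DR (ngl)
open scoped Real ComplexConjugate

/-! ### The number of circles, and so on -/

lemma sum_fl {α : Type} [AddCommMonoid α] (g : Tb → α) (ts : List (Tb × Tb)) :
    (ts.map fun p => g p.1 + g p.2).sum = ((fl ts).map g).sum := by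
  induction ts with
  | nil => rfl
  | cons p ts ih =>
    rw [fl_cons, List.map_cons, List.sum_cons, ih, List.map_cons, List.map_cons, List.sum_cons,
      List.sum_cons, add_assoc]

lemma sum_deq {α : Type} [AddCommMonoid α] (g : Tb → α) {ts ts' : List (Tb × Tb)}
    (h : DEq (fl ts) (fl ts')) :
    (ts'.map fun p => g p.1 + g p.2).sum = (ts.map fun p => g p.1 + g p.2).sum := by
  rw [sum_fl, sum_fl]
  exact (h.perm.map g).sum_eq

lemma len_deq {α : Type} {ts ts' : List (α × α)} (h : DEq (fl ts) (fl ts')) :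
    ts'.length = ts.length := by
  have := h.perm.length_eq
  rw [fl_length, fl_length] at this
  omega

lemma noC_iff (ts : List (Tb × Tb)) : NoC ts ↔ ∀ t ∈ fl ts, t.bl = false := by
  induction ts with
  | nil => simp [NoC]
  | cons p ts ih =>
    rw [fl_cons]
    unfold NoC at ih ⊢
    simp only [List.mem_cons, forall_eq_or_imp]
    rw [ih]
    tauto

lemma noC_deq {ts ts' : List (Tb × Tb)} (h : DEq (fl ts) (fl ts')) (hno : NoC ts) : NoC ts' := by
  rw [noC_iff] at hno ⊢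
  exact fun t ht => hno t (h.perm.mem_iff.1 ht)

lemma fl_tvl (ts : List (Tb × Tb)) : fl (tvl ts) = (fl ts).map tv := fl_map tv ts

lemma deq_tvl {ts ts' : List (Tb × Tb)} (h : DEq (fl ts) (fl ts')) :
    DEq (fl (tvl ts)) (fl (tvl ts')) := by
  rw [fl_tvl, fl_tvl]
  exact h.map tv

theorem pzD_deq (N : ℕ) {ts ts' : List (Tb × Tb)} (h : DEq (fl ts) (fl ts')) (m : ℤ) :
    pzD N ts' m = pzD N ts m := by
  have h1 : wsl ts' = wsl ts := sum_deq Tb.ws h
  have h2 : nbl ts' = nbl ts := sum_deq Tb.nb h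
  have h3 : nel ts' = nel ts := sum_deq Tb.ne h
  unfold pzD
  rw [len_deq h, h1, h2, h3]

theorem ES_deq (N : ℕ) {ls ls' : List (Vx × Vx)} (h : DEq (fl ls) (fl ls')) :
    ES N ls' 0 = ES N ls 0 := by
  unfold ES
  have h1 : TV N ls' = TV N ls := funext (TV_deq h)
  rw [h1]
  simp

theorem EA_deq (N : ℕ) {ls ls' : List (Vx × Vx)} (h : DEq (fl ls) (fl ls')) (m : ℤ) :
    EA N ls' m = EA N ls m := by
  unfold EA
  have h1 : TV N ls' = TV N ls := funext (TV_deq h)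
  rw [h1]

/-- the invariant of the ring is unchanged by rotations and reflections -/
theorem JD_deq {N : ℕ} (hN : 2 ≤ N) {ts ts' : List (Tb × Tb)} (hts : ts ≠ []) (hno : NoC ts)
    (h : DEq (fl ts) (fl ts')) : JD ts' 0 N (vN N) = JD ts 0 N (vN N) := by
  have hts' : ts' ≠ [] := by
    rw [← List.length_pos_iff, len_deq h, List.length_pos_iff]
    exact hts
  rw [Pool.Agent.Y274.DX.exdx N ts' 0 hN hts' (noC_deq h hno),
    Pool.Agent.Y274.DX.exdx N ts 0 hN hts hno, pzD_deq N h, ES_deq N (deq_tvl h)]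

/-- the invariant of the ring with its axis is unchanged by rotations and reflections -/
theorem JA_deq {N : ℕ} (hN : 2 ≤ N) {ts ts' : List (Tb × Tb)} (m : ℤ) (hts : ts ≠ [])
    (hno : NoC ts) (h : DEq (fl ts) (fl ts')) : JA ts' m N (vN N) = JA ts m N (vN N) := by
  have hts' : ts' ≠ [] := by
    rw [← List.length_pos_iff, len_deq h, List.length_pos_iff]
    exact hts
  rw [Pool.Agent.Y100.DX.t_axpd N ts' m hN hts' (noC_deq h hno),
    Pool.Agent.Y100.DX.t_axpd N ts m hN hts hno, pzD_deq N h, EA_deq N (deq_tvl h)]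

theorem JX_deq {N : ℕ} (hN : 2 ≤ N) {ts ts' : List (Tb × Tb)} (m : ℤ) (hts : ts ≠ [])
    (hno : NoC ts) (h : DEq (fl ts) (fl ts')) : JX ts' m N (vN N) = JX ts m N (vN N) := by
  rw [JX_eq (by omega), JX_eq (by omega), JA_deq hN m hts hno h]

/-! ### Mirror images of the ring with its axis -/

theorem EA_ngl (N : ℕ) (ts : List (Tb × Tb)) (m : ℤ) :
    EA N (tvl (ngl ts)) (-m) = (-1) ^ nel ts * conj (EA N (tvl ts) m) := by
  have hr : ∀ p : ℕ, conj (2 * (π : ℂ) * p / N) = 2 * (π : ℂ) * p / N := by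
    intro p
    simp only [map_div₀, map_mul, Complex.conj_ofReal, map_natCast, map_ofNat]
  unfold EA
  rw [map_sum, Finset.mul_sum]
  refine sum_congr rfl fun p _ => ?_
  rw [Pool.Agent.Y785.DR.TV_ngl, hr, map_mul, Pool.Agent.Y458.CG.conj_Ea, hr,
    show 2 * -m = -(2 * m) by ring]
  ring

theorem JA_mir {N : ℕ} (hN : 2 ≤ N) (ts : List (Tb × Tb)) (m : ℤ) (hts : ts ≠ [])
    (hno : NoC ts) : JA (mir ts) (-m) N (vN N) =
      kb N ^ (2 * nbl ts) * conj (JA ts m N (vN N)) := by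
  have h1 : ngl ts ≠ [] := fun h => hts (List.map_eq_nil_iff.mp h)
  have h2 := Pool.Agent.Y100.DX.t_axpd N (ngl ts) (-m) hN h1 (Pool.Agent.Y785.DR.noC_ngl hno)
  have h3 := Pool.Agent.Y100.DX.t_axpd N ts m hN hts hno
  have hgoal : JA (mir ts) (-m) N (vN N) = JA (ngl ts) (-m) N (vN N) := rfl
  rw [hgoal, h2, h3, EA_ngl]
  have hlen : (ngl ts).length = ts.length := by
    unfold ngl
    rw [List.length_map]
  have kpn : conj (kp N) = (kp N)⁻¹ :=
    Pool.Agent.Y274.DX.inv_of_norm (Pool.Agent.W803.AR.norm_kp N)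
  have kbn : conj (kb N) = (kb N)⁻¹ :=
    Pool.Agent.Y274.DX.inv_of_norm (Pool.Agent.Y274.DX.norm_kb N)
  have vn : conj (vN N) = (vN N)⁻¹ :=
    Pool.Agent.Y274.DX.inv_of_norm (Pool.Agent.Y967.CB.norm_vN N)
  have hkb : kb N ≠ 0 := fun h0 => by
    have h := Pool.Agent.Y274.DX.norm_kb N
    rw [h0, norm_zero] at h
    exact zero_ne_one h
  unfold pzD
  rw [Pool.Agent.Y274.DX.wsl_ngl, Pool.Agent.Y274.DX.nbl_ngl, Pool.Agent.Y785.DR.nel_ngl, hlen]
  simp only [map_mul, map_pow, map_zpow₀, map_neg, map_one, map_div₀, Complex.conj_I, map_natCast,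
    map_ofNat, Complex.conj_ofReal, kpn, kbn, vn]
  have e1 : vN N ^ (4 * -m) = (vN N)⁻¹ ^ (4 * m) := by
    rw [inv_zpow', mul_neg]
  have e2 : kp N ^ (-wsl ts) = (kp N)⁻¹ ^ wsl ts := by rw [inv_zpow']
  have e3 : kb N ^ nbl ts = kb N ^ (2 * nbl ts) * (kb N)⁻¹ ^ nbl ts := by
    rw [inv_pow, two_mul, pow_add, mul_assoc, mul_inv_cancel₀ (pow_ne_zero _ hkb), mul_one]
  have e4 : ((-1) ^ (N - 1) * (-Complex.I * (N : ℂ) ^ 2 / (2 * π))) ^ nel ts =
      (-1) ^ nel ts * ((-1) ^ (N - 1) * (Complex.I * N ^ 2 / (2 * π))) ^ nel ts := by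
    rw [← mul_pow]
    congr 1
    ring
  rw [e1, e2, e3, e4]
  ring

/-! ### Real numbers -/

lemma vN_zpow {N : ℕ} (hN : N ≠ 0) (q : ℤ) : vN N ^ (2 * (N : ℤ) * q) = 1 := by
  have hN0 : (N : ℂ) ≠ 0 := by exact_mod_cast hN
  have e4 : vN N = Complex.exp (π * Complex.I / N) := rfl
  rw [e4, ← Complex.exp_int_mul, Complex.exp_eq_one_iff]
  refine ⟨q, ?_⟩
  push_cast
  field_simp

lemma conj_vN (N : ℕ) : conj (vN N) = (vN N)⁻¹ :=
  Pool.Agent.Y274.DX.inv_of_norm (Pool.Agent.Y967.CB.norm_vN N)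

lemma vN_ne (N : ℕ) : vN N ≠ 0 := Complex.exp_ne_zero _

/-- real numbers, after the correction of the framing -/
lemma real_of {a : ℂ} {s e q : ℤ} {N : ℕ} (hN : N ≠ 0) (h : a = vN N ^ s * conj a)
    (hd : 2 * (e * ((N : ℤ) ^ 2 - 1)) + s = 2 * (N : ℤ) * q) (f : ℤ) :
    (fr e f N * a).im = 0 := by
  rw [← Complex.conj_eq_iff_im]
  have e4 : Complex.exp (π * Complex.I / N) = vN N := rfl
  unfold fr
  rw [e4]
  simp only [map_mul, map_zpow₀, map_neg, map_one, conj_vN]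
  conv_rhs => rw [h]
  have h1 : (vN N)⁻¹ ^ (e * ((N : ℤ) ^ 2 - 1)) =
      vN N ^ (e * ((N : ℤ) ^ 2 - 1)) * vN N ^ s := by
    rw [inv_zpow', ← zpow_add₀ (vN_ne N)]
    have h2 : e * ((N : ℤ) ^ 2 - 1) + s = -(e * ((N : ℤ) ^ 2 - 1)) + 2 * (N : ℤ) * q := by
      linarith
    rw [h2, zpow_add₀ (vN_ne N), vN_zpow hN, mul_one]
  rw [h1]
  ring

lemma kb_eq (N : ℕ) (b : ℕ) : kb N ^ (2 * b) = vN N ^ (4 * (b : ℤ)) := by
  have e4 : vN N = Complex.exp (π * Complex.I / N) := rfl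
  unfold kb
  rw [e4, ← Complex.exp_int_mul, ← Complex.exp_nat_mul]
  congr 1
  push_cast
  ring

/-- the rings for which the mirror image of the cyclic sequence is a rotation or a reflection of
it -/
def Ach (ts : List (Tb × Tb)) : Prop := DEq (fl ts) (fl (mir ts))

theorem JD_ach {N : ℕ} (hN : 2 ≤ N) {ts : List (Tb × Tb)} (hts : ts ≠ []) (hno : NoC ts)
    (h : Ach ts) (f : ℤ) : (fr (2 * nbl ts) f N * JD ts 0 N (vN N)).im = 0 := by
  have h1 := Pool.Agent.Y274.DX.mirdx N ts 0 hN hts hno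
  rw [neg_zero] at h1
  have h2 : JD (ts.map fun p => (ngb p.1, ngb p.2)) 0 N (vN N) = JD ts 0 N (vN N) :=
    JD_deq hN hts hno h
  rw [h2, kb_eq] at h1
  refine real_of (q := 2 * nbl ts * N) (by omega) h1 ?_ f
  ring

theorem JX_ach {N : ℕ} (hN : 2 ≤ N) {ts : List (Tb × Tb)} (hts : ts ≠ []) (hno : NoC ts)
    (h : Ach ts) (f : ℤ) : (fr (2 * nbl ts + 3) f N * JX ts 0 N (vN N)).im = 0 := by
  have h1 := JA_mir hN ts 0 hts hno
  rw [neg_zero, JA_deq hN 0 hts hno h, kb_eq] at h1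
  have h3 : JX ts 0 N (vN N) = vN N ^ (-3 * ((N : ℤ) - 1)) * JA ts 0 N (vN N) :=
    JX_eq (by omega) ts 0
  have h2 : JX ts 0 N (vN N) = vN N ^ (-6 * ((N : ℤ) - 1) + 4 * (nbl ts : ℤ)) *
      conj (JX ts 0 N (vN N)) := by
    rw [h3, map_mul, map_zpow₀, conj_vN, inv_zpow', ← mul_assoc, ← zpow_add₀ (vN_ne N)]
    conv_lhs => rw [h1]
    rw [← mul_assoc, ← zpow_add₀ (vN_ne N)]
    congr 2
    ring
  refine real_of (q := (2 * nbl ts + 3) * N - 3) (by omega) h2 ?_ f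
  ring

/-- The Chern-Simons invariant: multiples of `2 π²`. -/
theorem cs_of {a : ℕ → ℂ} {V C : ℝ} {y : ℕ → ℂ} {e f : ℤ} (hy : y 0 ≠ 0)
    (h : EXY a ((V + Complex.I * ((C + 2 * π ^ 2 * (e + f) : ℝ) : ℂ)) / (2 * π)) y)
    (hr : ∀ᶠ N : ℕ in atTop, (a N).im = 0) : ∃ c : ℤ, C = 2 * π ^ 2 * c := by
  obtain ⟨k, hk⟩ := im_growth hy h hr
  have e1 : ((V + Complex.I * ((C + 2 * π ^ 2 * (e + f) : ℝ) : ℂ)) / (2 * π) : ℂ).im =
      (C + 2 * π ^ 2 * (e + f)) / (2 * π) := by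
    have e2 : ((V + Complex.I * ((C + 2 * π ^ 2 * (e + f) : ℝ) : ℂ)) / (2 * π) : ℂ) =
        ((V / (2 * π) : ℝ) : ℂ) + (((C + 2 * π ^ 2 * (e + f)) / (2 * π) : ℝ) : ℂ) *
          Complex.I := by
      push_cast
      ring
    rw [e2, Complex.add_im, Complex.im_ofReal_mul, Complex.I_im, mul_one, Complex.ofReal_im,
      zero_add]
  rw [e1, div_eq_iff (by positivity)] at hk
  refine ⟨k - (e + f), ?_⟩
  push_cast
  linear_combination hk

end Pool.Agent.J6H61.VC
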