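import Pool.Agent.J6H61.VC.Rate

/-!
# Sharp asymptotics along the odd integers
-/

set_option autoImplicit false

namespace Pool.Agent.J6H61.VC

open Finset Filter Topology

/-- The filter of the odd integers tending to infinity. -/
def oddTop : Filter ℕ := atTop ⊓ 𝓟 {n | Odd n}

/-- Along the odd integers `J_n / (n^{3/2} exp (n (V + i C) / 2 π))` has the asymptotic expansion
`∑ y_k / n^k`, to all orders. -/
def Expansion (J : ℕ → ℂ) (V C : ℝ) (y : ℕ → ℂ) : Prop := ∀ K : ℕ, ∃ B : ℝ,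
  ∀ᶠ n : ℕ in oddTop, ‖J n / (((n : ℝ) ^ (3 / 2 : ℝ) : ℝ) *
    Complex.exp ((V + Complex.I * C) / (2 * Real.pi) * n)) -
      ∑ k ∈ range K, y k / (n : ℂ) ^ k‖ ≤ B / (n : ℝ) ^ K

/-- The conclusion of the complexified volume conjecture along the odd integers, with the rate of
convergence: `J_n ≠ 0` for all large odd `n`, and
`π log (J_{n+2} / J_n) = V + i C + 3 π / n + O (1 / n²)` for a value `l` of the logarithm; moreover
`J_n / (n^{3/2} exp (n (V + i C) / 2 π))` has an asymptotic expansion in powers of `1 / n` to all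
orders, with a leading coefficient other than `0`. -/
structure Sharp (J : ℕ → ℂ) (V C : ℝ) : Prop where
  ne : ∀ᶠ n : ℕ in oddTop, J n ≠ 0
  rate : ∃ B : ℝ, ∀ᶠ n : ℕ in oddTop, ∃ l : ℂ, Complex.exp l = J (n + 2) / J n ∧
    ‖Real.pi * l - (V + Complex.I * C + 3 * Real.pi / n)‖ ≤ B / (n : ℝ) ^ 2
  expansion : ∃ y : ℕ → ℂ, y 0 ≠ 0 ∧ Expansion J V C y

lemma oddTop_le : oddTop ≤ atTop := inf_le_left

lemma ev_odd : ∀ᶠ n : ℕ in oddTop, Odd n := by
  unfold oddTop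
  exact mem_inf_of_right (mem_principal_self _)

lemma neg_one_odd {j : ℤ} {n : ℕ} (hn : Odd n) :
    Complex.exp (n * (Real.pi * Complex.I * j)) = (-1) ^ j := by
  have e1 : (n : ℂ) * (Real.pi * Complex.I * j) = ((j * n : ℤ) : ℂ) * (Real.pi * Complex.I) := by
    push_cast
    ring
  rw [e1, Complex.exp_int_mul, Complex.exp_pi_mul_I]
  rcases Int.even_or_odd j with h | h
  · rw [h.neg_one_zpow, (h.mul_right _).neg_one_zpow]
  · rw [h.neg_one_zpow, (h.mul (by exact_mod_cast hn)).neg_one_zpow]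

lemma sqrt_cube_rpow (n : ℕ) : (Real.sqrt n) ^ 3 = (n : ℝ) ^ (3 / 2 : ℝ) := by
  rw [Real.sqrt_eq_rpow, ← Real.rpow_natCast, ← Real.rpow_mul (Nat.cast_nonneg n)]
  norm_num

/-- along the odd integers the representative of the Chern-Simons invariant matters modulo `2 π²`
only -/
theorem expansion_of {J : ℕ → ℂ} {V C : ℝ} {y : ℕ → ℂ} (j : ℤ)
    (h : Exy J ((V + Complex.I * ((C + 2 * Real.pi ^ 2 * j : ℝ) : ℂ)) / (2 * Real.pi)) y) :
    Expansion J V C fun k => (-1) ^ j * y k := by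
  intro K
  obtain ⟨B, hB⟩ := h K
  refine ⟨B, ?_⟩
  have hpi : (Real.pi : ℂ) ≠ 0 := by exact_mod_cast Real.pi_ne_zero
  filter_upwards [hB.filter_mono oddTop_le, ev_odd] with n hn ho
  have e1 : (n : ℂ) * ((V + Complex.I * ((C + 2 * Real.pi ^ 2 * j : ℝ) : ℂ)) / (2 * Real.pi)) =
      (V + Complex.I * C) / (2 * Real.pi) * n + n * (Real.pi * Complex.I * j) := by
    push_cast
    field_simp
    ring
  rw [e1, Complex.exp_add, neg_one_odd ho, sqrt_cube_rpow] at hn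
  have e3 : ((-1 : ℂ) ^ j) ≠ 0 := zpow_ne_zero _ (by norm_num)
  have e4 : ‖(-1 : ℂ) ^ j‖ = 1 := by rw [norm_zpow, norm_neg, norm_one, one_zpow]
  have key : J n / (((n : ℝ) ^ (3 / 2 : ℝ) : ℝ) *
      Complex.exp ((V + Complex.I * C) / (2 * Real.pi) * n)) -
        ∑ k ∈ range K, (-1) ^ j * y k / (n : ℂ) ^ k = (-1) ^ j *
      (J n / (((n : ℝ) ^ (3 / 2 : ℝ) : ℝ) *
        (Complex.exp ((V + Complex.I * C) / (2 * Real.pi) * n) * (-1) ^ j)) -
        ∑ k ∈ range K, y k / (n : ℂ) ^ k) := by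
    rw [mul_sub, Finset.mul_sum]
    congr 1
    · rw [← mul_assoc, div_mul_eq_div_div _ _ ((-1 : ℂ) ^ j), mul_div_cancel₀ _ e3]
    · exact sum_congr rfl fun k _ => by ring
  rw [key, norm_mul, e4, one_mul]
  exact hn

/-- the conclusion, from an expansion along all integers -/
theorem sharp_of {J : ℕ → ℂ} {V C : ℝ} {y : ℕ → ℂ} (j : ℤ) (hy : y 0 ≠ 0)
    (h : Exy J ((V + Complex.I * ((C + 2 * Real.pi ^ 2 * j : ℝ) : ℂ)) / (2 * Real.pi)) y) :
    Sharp J V C := by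
  refine ⟨(ev_ne hy h).filter_mono oddTop_le, ?_, fun k => (-1) ^ j * y k,
    mul_ne_zero (zpow_ne_zero _ (by norm_num)) hy, expansion_of j h⟩
  obtain ⟨B, hB⟩ := rate hy h
  have hpi : (Real.pi : ℂ) ≠ 0 := by exact_mod_cast Real.pi_ne_zero
  refine ⟨Real.pi * B, (hB.filter_mono oddTop_le).mono ?_⟩
  rintro n ⟨l, h1, h2⟩
  refine ⟨l - j * (2 * Real.pi * Complex.I), ?_, ?_⟩
  · rw [Complex.exp_sub, h1, Complex.exp_int_mul_two_pi_mul_I, div_one]
  · have e1 : Real.pi * (l - j * (2 * Real.pi * Complex.I)) -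
        (V + Complex.I * C + 3 * Real.pi / n) = Real.pi *
        (l - (2 * ((V + Complex.I * ((C + 2 * Real.pi ^ 2 * j : ℝ) : ℂ)) / (2 * Real.pi)) +
          3 / n)) := by
      push_cast
      field_simp
      ring
    rw [e1, norm_mul, Complex.norm_real, Real.norm_eq_abs, abs_of_pos Real.pi_pos, mul_div_assoc]
    exact mul_le_mul_of_nonneg_left h2 Real.pi_pos.le

/-- the value `j = 0` -/
theorem sharp_of' {J : ℕ → ℂ} {V C : ℝ} {y : ℕ → ℂ} (hy : y 0 ≠ 0)
    (h : Exy J ((V + Complex.I * ((C : ℝ) : ℂ)) / (2 * Real.pi)) y) : Sharp J V C := by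
  refine sharp_of 0 hy ?_
  rw [Int.cast_zero, mul_zero, add_zero]
  exact h

/-- real sequences: the expansion has real coefficients -/
theorem real_expansion {J : ℕ → ℂ} {V : ℝ} {y : ℕ → ℂ} (j : ℤ) (hy : y 0 ≠ 0)
    (h : Exy J ((V + Complex.I * ((2 * Real.pi ^ 2 * j : ℝ) : ℂ)) / (2 * Real.pi)) y)
    (hr : ∀ᶠ N : ℕ in atTop, (J N).im = 0) :
    ∃ x : ℕ → ℝ, x 0 ≠ 0 ∧ Expansion J V 0 fun k => (x k : ℂ) := by
  have hpi : (Real.pi : ℂ) ≠ 0 := by exact_mod_cast Real.pi_ne_zero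
  have him : ((V + Complex.I * ((2 * Real.pi ^ 2 * j : ℝ) : ℂ)) / (2 * Real.pi) : ℂ).im =
      j * Real.pi := by
    have e : ((V + Complex.I * ((2 * Real.pi ^ 2 * j : ℝ) : ℂ)) / (2 * Real.pi) : ℂ) =
        ((V / (2 * Real.pi) : ℝ) : ℂ) + ((j * Real.pi : ℝ) : ℂ) * Complex.I := by
      push_cast
      field_simp
    rw [e, Complex.add_im, Complex.im_ofReal_mul, Complex.I_im, mul_one, Complex.ofReal_im,
      zero_add]
  have hy' : ∀ k, (((y k).re : ℝ) : ℂ) = y k := fun k => by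
    rw [← Complex.re_add_im (y k), coeff_real h him hr k]
    simp
  refine ⟨fun k => (-1) ^ j * (y k).re, ?_, ?_⟩
  · refine mul_ne_zero (zpow_ne_zero _ (by norm_num)) fun h0 => hy ?_
    rw [← hy' 0, h0, Complex.ofReal_zero]
  · have h1 : (fun k : ℕ => (((-1) ^ j * (y k).re : ℝ) : ℂ)) = fun k => (-1) ^ j * y k := by
      funext k
      push_cast
      rw [hy' k]
    rw [h1]
    refine expansion_of j ?_
    rw [zero_add]
    exact h

end Pool.Agent.J6H61.VC
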