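import Pool.Agent.Results.MP_b30479_gt.PolyhedralLinksOdd
import Pool.Agent.N566.RX.FinS
import Pool.Agent.J6H61.VC.Sharp

/-!
# Trees with large vertices and isolated small vertices (closed rings)
-/

set_option autoImplicit false

namespace Pool.Agent.J6H61.VC.Ring

open Finset Filter Topology
open Pool.Agent.Results.MP_b30479_gt.PolyhedralLinksOdd

/-- The small vertices (`n` neighbours, weight `a`, no crossing circle): `a ≤ 0` and
`n + |a| ≥ 4`, or `n = 3` and `a = 0`, or `n = 1` and `a = -2` (a clasp), or `a > 0` and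
`n + a ≥ 5`. -/
def Small (n : ℕ) (a : ℤ) : Prop :=
  (a ≤ 0 ∧ 4 ≤ (n : ℤ) + |a|) ∨ (n = 3 ∧ a = 0) ∨ (n = 1 ∧ a = -2) ∨ (0 < a ∧ 5 ≤ (n : ℤ) + a)

/-- Every vertex other than the root is large (`Tree.Big`: `K² ≤ n² + a²` or there is a crossing
circle) or small, and of two neighbouring vertices at least one is large; `g` is the statement
that the root is large. -/
def FineBelow (K : ℕ) : Prop → Tree → Prop
  | _, .single _ _ => True
  | g, .join t c => FineBelow K g t ∧
      FineBelow K (Tree.Big K c.circle (c.children + 1) c.weight) c ∧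
      (Tree.Big K c.circle (c.children + 1) c.weight ∨
        (g ∧ c.circle = false ∧ Small (c.children + 1) c.weight))

/-- The trees admitted in the ring: the root has no crossing circle, at most `D` children and a
weight of absolute value at least `M`; the other vertices are large or small, no two small vertices
being neighbours. -/
def Admissible (K D M : ℕ) (t : Tree) : Prop :=
  t.circle = false ∧ t.children ≤ D ∧ (M : ℤ) ≤ |t.weight| ∧ FineBelow K True t

/-! ### Bridges -/

open Pool.Agent.W719.AR (Fl)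
open Pool.Agent.TH563.UV (Tb AB)
open Pool.Agent.Y481.DR (JD tj NoC rv)
open Pool.Agent.W719.AX (EXY)
open Pool.Agent.N561 (OkT2)

lemma fineBelow_ok {K : ℕ} {K' : ℝ} (h0 : 0 < K') (hK : K' ≤ K) (t : Tree) :
    ∀ (g : Prop) (gb : Bool), (g → gb = true) → FineBelow K g t →
      OkT2 Pool.Agent.N566.PS.TyS K' gb (toTb t) := by
  induction t with
  | single b a => intro g gb _ _; trivial
  | join t c iht ihc =>
    rintro g gb hg ⟨h1, h2, h3⟩
    refine ⟨iht g gb hg h1, ?_⟩
    rw [bl_to, nc_to, wt_to]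
    by_cases hbig : Tree.Big K c.circle (c.children + 1) c.weight
    · exact Or.inl ⟨big_to h0 hK hbig, ihc _ true (fun _ => rfl) h2⟩
    · rcases h3 with h3 | ⟨h3, h4⟩
      · exact absurd h3 hbig
      · exact Or.inr ⟨hg h3, h4, ihc _ false (fun h => absurd h hbig) h2⟩

lemma ok_ofV {K M : ℝ} (hK : 0 < K) {D : ℕ} {ts : List (Tree × Tree)}
    (h : ∀ p ∈ ts, Admissible ⌈K⌉₊ D ⌈M⌉₊ p.1 ∧ Admissible ⌈K⌉₊ D ⌈M⌉₊ p.2) :
    Pool.Agent.N566.RX.OkRV Pool.Agent.N566.PS.TyS K D M (toTs ts) := by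
  constructor
  · intro q hq
    obtain ⟨p, hp, rfl⟩ := List.mem_map.1 hq
    simp only [bl_to]
    exact ⟨(h p hp).1.1, (h p hp).2.1⟩
  · intro q hq
    obtain ⟨p, hp, rfl⟩ := List.mem_map.1 hq
    obtain ⟨⟨_, a2, a3, a4⟩, ⟨_, b2, b3, b4⟩⟩ := h p hp
    simp only [nc_to, wt_to]
    exact ⟨fineBelow_ok hK (Nat.le_ceil K) _ _ _ (fun _ => rfl) a4,
      fineBelow_ok hK (Nat.le_ceil K) _ _ _ (fun _ => rfl) b4, a2, b2,
      bound_of a3, bound_of b3⟩

end Pool.Agent.J6H61.VC.Ring
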