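import Pool.Agent.Y481.DR.Defs

/-!
# Rings of trees: rotations and reflections of the cyclic sequence of trees

The trace `TV` is that of a product of matrices `MAV` and `MBV`, one for every vertex of the ring,
in alternation.  It is invariant under rotations of the ring by one place (this exchanges the two
kinds of matrices) and under reversal.
-/

set_option autoImplicit false

namespace Pool.Agent.J6H61.VC

open Finset Filter Topology Matrix
open Pool.Agent.W711.HT hiding XX
open Pool.Agent.Y472
open Pool.Agent.Y481.DR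
open scoped Real

/-! ### Lists -/

/-- the cyclic list of a list of pairs -/
def fl {α : Type} (ls : List (α × α)) : List α := (ls.map fun p => [p.1, p.2]).flatten

@[simp] lemma fl_nil {α : Type} : fl ([] : List (α × α)) = [] := rfl

@[simp] lemma fl_cons {α : Type} (p : α × α) (ls : List (α × α)) :
    fl (p :: ls) = p.1 :: p.2 :: fl ls := rfl

lemma fl_length {α : Type} (ls : List (α × α)) : (fl ls).length = 2 * ls.length := by
  induction ls with
  | nil => rfl
  | cons p ls ih =>
    rw [fl_cons, List.length_cons, List.length_cons, List.length_cons, ih]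
    ring

lemma fl_map {α β : Type} (g : α → β) (ls : List (α × α)) :
    fl (ls.map fun p => (g p.1, g p.2)) = (fl ls).map g := by
  induction ls with
  | nil => rfl
  | cons p ls ih => simp [ih]

/-- rotations and reflections -/
def DEq {α : Type} (l l' : List α) : Prop := l' ~r l ∨ l' ~r l.reverse

lemma DEq.perm {α : Type} {l l' : List α} (h : DEq l l') : l'.Perm l := by
  rcases h with h | h
  · exact h.perm
  · exact h.perm.trans l.reverse_perm

lemma DEq.map {α β : Type} (g : α → β) {l l' : List α} (h : DEq l l') :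
    DEq (l.map g) (l'.map g) := by
  rcases h with h | h
  · exact Or.inl (h.map g)
  · refine Or.inr ?_
    rw [← List.map_reverse]
    exact h.map g

/-- invariance under rotations and reversal -/
lemma deq_ind {α β : Type} (T : List α → β)
    (hrot : ∀ (x : α) (l : List α), Even (x :: l).length → T (l ++ [x]) = T (x :: l))
    (hrev : ∀ l : List α, Even l.length → T l.reverse = T l) {l l' : List α}
    (hl : Even l.length) (h : DEq l l') : T l' = T l := by
  have h1 : ∀ (n : ℕ) (l : List α), Even l.length → T (l.rotate n) = T l := by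
    intro n
    induction n with
    | zero => intro l _; rw [List.rotate_zero]
    | succ n ih =>
      intro l hl
      rcases l with _ | ⟨x, l⟩
      · rw [List.rotate_nil]
      · rw [List.rotate_cons_succ, ih _ (by simpa using hl)]
        exact hrot x l hl
  have h2 : ∀ l l' : List α, Even l.length → l' ~r l → T l' = T l := by
    intro l l' hl h
    obtain ⟨n, rfl⟩ := h.symm
    exact h1 n l hl
  rcases h with h | h
  · exact h2 l l' hl h
  · rw [h2 _ l' (by rwa [List.length_reverse]) h, hrev l hl]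

/-! ### The matrices -/

/-- `Ph` as a function of `c = 2 cos χ` -/
noncomputable def PhC (N : ℕ) (c : ℂ) (t : ℕ) : ℂ :=
  (2 - 2 * Real.cos (2 * π * t / N)) * (c - 2 * Real.cos (2 * π * t / N))

/-- `MBV` as a function of `c = 2 cos χ` -/
noncomputable def MBC (N : ℕ) (c : ℂ) (V : Vx) : Matrix (Fin N) (Fin N) ℂ :=
  fun i j => if i ≤ j then (∏ t ∈ Ioc (i : ℕ) j, PhC N c t) * cV N V i j else 0

lemma MBV_eq (N : ℕ) (χ : ℂ) (V : Vx) : MBV N χ V = MBC N (2 * Complex.cos χ) V := rfl

/-- one of the two matrices -/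
noncomputable def M2 (N : ℕ) (c : ℂ) (b : Bool) (V : Vx) : Matrix (Fin N) (Fin N) ℂ :=
  if b then MAV N V else MBC N c V

/-- alternating products -/
noncomputable def alt (N : ℕ) (c : ℂ) : Bool → List Vx → Matrix (Fin N) (Fin N) ℂ
  | _, [] => 1
  | b, x :: l => M2 N c b x * alt N c (!b) l

lemma alt_nil (N : ℕ) (c : ℂ) (b : Bool) : alt N c b [] = 1 := by
  cases b <;> rfl

lemma alt_cons (N : ℕ) (c : ℂ) (b : Bool) (x : Vx) (l : List Vx) :
    alt N c b (x :: l) = M2 N c b x * alt N c (!b) l := by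
  cases b <;> rfl

lemma alt_append (N : ℕ) (c : ℂ) (l l' : List Vx) : ∀ b : Bool,
    alt N c b (l ++ l') = alt N c b l * alt N c (not^[l.length] b) l' := by
  induction l with
  | nil =>
    intro b
    rw [List.nil_append, alt_nil, one_mul]
    rfl
  | cons x l ih =>
    intro b
    rw [List.cons_append, alt_cons, ih, alt_cons, mul_assoc, List.length_cons,
      Function.iterate_succ_apply]

lemma not_iter_even {n : ℕ} (h : Even n) (b : Bool) : not^[n] b = b := by
  obtain ⟨k, rfl⟩ := h
  induction k with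
  | zero => rfl
  | succ k ih =>
    rw [show k + 1 + (k + 1) = k + k + 2 by ring, Function.iterate_add_apply]
    have : not^[2] b = b := by cases b <;> rfl
    rw [this, ih]

/-- the trace -/
noncomputable def TC (N : ℕ) (l : List Vx) (c : ℂ) : ℂ := (alt N c true l).trace

lemma alt_fl (N : ℕ) (c : ℂ) (ls : List (Vx × Vx)) :
    alt N c true (fl ls) = (ls.map fun p => MAV N p.1 * MBC N c p.2).prod := by
  induction ls with
  | nil => rfl
  | cons p ls ih =>
    rw [fl_cons, alt_cons, alt_cons, Bool.not_true, Bool.not_false, ih, List.map_cons,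
      List.prod_cons, mul_assoc]
    rfl

lemma TV_eq (N : ℕ) (ls : List (Vx × Vx)) (χ : ℂ) :
    TV N ls χ = TC N (fl ls) (2 * Complex.cos χ) := by
  unfold TV TC
  rw [alt_fl]
  rfl

/-! ### Symmetries of the coefficients -/

lemma cV_rev {N : ℕ} (V : Vx) (i j : ℕ) :
    cV N V (N - 1 - j) i = cV N V (N - 1 - i) j := by
  unfold cV
  rw [show N - 1 - i + (N - 1 - j) = N - 1 - j + (N - 1 - i) by ring]
  congr 2
  funext ψ
  ring

lemma PhC_symm {N : ℕ} (c : ℂ) {t : ℕ} (ht : t ≤ N) (hN : N ≠ 0) :
    PhC N c (N - t) = PhC N c t := by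
  have hN0 : (N : ℝ) ≠ 0 := by exact_mod_cast hN
  have e : Real.cos (2 * π * ((N - t : ℕ) : ℝ) / N) = Real.cos (2 * π * t / N) := by
    rw [Nat.cast_sub ht]
    have : 2 * π * ((N : ℝ) - t) / N = 2 * π - 2 * π * t / N := by
      field_simp
    rw [this, Real.cos_two_pi_sub]
  unfold PhC
  rw [e]

/-- the products of the `PhC` -/
noncomputable def dd (N : ℕ) (c : ℂ) (i : ℕ) : ℂ := ∏ t ∈ Ioc 0 i, PhC N c t

lemma dd_mul (N : ℕ) (c : ℂ) {i j : ℕ} (h : i ≤ j) :
    dd N c i * ∏ t ∈ Ioc i j, PhC N c t = dd N c j := by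
  unfold dd
  rw [← Finset.prod_union, Finset.Ioc_union_Ioc_eq_Ioc (Nat.zero_le i) h]
  exact Finset.Ioc_disjoint_Ioc_of_le le_rfl

lemma prod_symm {N : ℕ} (c : ℂ) {i j : ℕ} (hi : i < N) (hj : j < N) :
    ∏ t ∈ Ioc i (N - 1 - j), PhC N c t = ∏ t ∈ Ioc j (N - 1 - i), PhC N c t := by
  refine Finset.prod_nbij' (fun t => N - t) (fun t => N - t) ?_ ?_ ?_ ?_ ?_
  · intro t ht
    rw [mem_Ioc] at ht ⊢
    omega
  · intro t ht
    rw [mem_Ioc] at ht ⊢
    omega
  · intro t ht
    rw [mem_Ioc] at ht
    omega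
  · intro t ht
    rw [mem_Ioc] at ht
    omega
  · intro t ht
    rw [mem_Ioc] at ht
    exact (PhC_symm c (by omega) (by omega)).symm

/-- the matrix which exchanges the two kinds of matrices -/
noncomputable def PP (N : ℕ) (c : ℂ) : Matrix (Fin N) (Fin N) ℂ :=
  fun i j => if i = Fin.rev j then dd N c j else 0

/-- its inverse -/
noncomputable def QQ (N : ℕ) (c : ℂ) : Matrix (Fin N) (Fin N) ℂ :=
  fun i j => if i = Fin.rev j then (dd N c i)⁻¹ else 0

lemma mul_PP {N : ℕ} (c : ℂ) (A : Matrix (Fin N) (Fin N) ℂ) (i j : Fin N) :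
    (A * PP N c) i j = A i (Fin.rev j) * dd N c j := by
  rw [Matrix.mul_apply, Finset.sum_eq_single (Fin.rev j)]
  · unfold PP
    rw [if_pos rfl]
  · intro k _ hk
    unfold PP
    rw [if_neg hk, mul_zero]
  · intro h
    exact absurd (mem_univ _) h

lemma PP_mul {N : ℕ} (c : ℂ) (A : Matrix (Fin N) (Fin N) ℂ) (i j : Fin N) :
    (PP N c * A) i j = dd N c (Fin.rev i : Fin N) * A (Fin.rev i) j := by
  rw [Matrix.mul_apply, Finset.sum_eq_single (Fin.rev i)]
  · unfold PP
    rw [if_pos (Fin.rev_rev i).symm]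
  · intro k _ hk
    unfold PP
    rw [if_neg, zero_mul]
    intro h
    exact hk (by rw [h, Fin.rev_rev])
  · intro h
    exact absurd (mem_univ _) h

lemma MAV_PP {N : ℕ} (c : ℂ) (V : Vx) : MAV N V * PP N c = PP N c * MBC N c V := by
  ext i j
  rw [mul_PP, PP_mul]
  unfold MAV MBC
  have hi := i.2
  have hj := j.2
  have e : (Fin.rev j ≤ i) ↔ (Fin.rev i ≤ j) := by
    rw [Fin.le_def, Fin.le_def, Fin.val_rev, Fin.val_rev]
    omega
  by_cases h : Fin.rev i ≤ j
  · rw [if_pos (e.2 h), if_pos h, ← mul_assoc, dd_mul N c (Fin.le_def.1 h), mul_comm]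
    congr 1
    rw [Fin.val_rev, Fin.val_rev]
    have := cV_rev (N := N) V (i : ℕ) (j : ℕ)
    rw [show N - (↑j + 1) = N - 1 - j by omega, show N - (↑i + 1) = N - 1 - i by omega]
    exact this
  · rw [if_neg (fun h' => h (e.1 h')), if_neg h, zero_mul, mul_zero]

lemma MBC_PP {N : ℕ} (c : ℂ) (V : Vx) : MBC N c V * PP N c = PP N c * MAV N V := by
  ext i j
  rw [mul_PP, PP_mul]
  unfold MAV MBC
  have hi := i.2
  have hj := j.2
  have e : (i ≤ Fin.rev j) ↔ (j ≤ Fin.rev i) := by
    rw [Fin.le_def, Fin.le_def, Fin.val_rev, Fin.val_rev]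
    omega
  by_cases h : j ≤ Fin.rev i
  · rw [if_pos (e.2 h), if_pos h]
    rw [Fin.val_rev, Fin.val_rev, show N - (↑j + 1) = N - 1 - j by omega,
      show N - (↑i + 1) = N - 1 - i by omega, prod_symm c hi hj]
    have h1 : (j : ℕ) ≤ N - 1 - i := by
      have := Fin.le_def.1 h
      rw [Fin.val_rev] at this
      omega
    rw [← dd_mul N c h1]
    have h2 : cV N V i (N - 1 - j) = cV N V j (N - 1 - i) := by
      unfold cV
      rw [show N - 1 - (N - 1 - ↑j) + ↑i = N - 1 - (N - 1 - ↑i) + ↑j by omega,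
        show N - 1 - (N - 1 - ↑j) = (j : ℕ) by omega,
        show N - 1 - (N - 1 - ↑i) = (i : ℕ) by omega]
      congr 2
      funext ψ
      ring
    rw [h2]
    ring
  · rw [if_neg (fun h' => h (e.1 h')), if_neg h, zero_mul, mul_zero]

lemma M2_PP {N : ℕ} (c : ℂ) (b : Bool) (V : Vx) :
    M2 N c b V * PP N c = PP N c * M2 N c (!b) V := by
  cases b
  · exact MBC_PP c V
  · exact MAV_PP c V

lemma alt_PP {N : ℕ} (c : ℂ) (l : List Vx) : ∀ b : Bool,
    alt N c b l * PP N c = PP N c * alt N c (!b) l := by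
  induction l with
  | nil => intro b; rw [alt_nil, alt_nil, one_mul, mul_one]
  | cons x l ih =>
    intro b
    rw [alt_cons, alt_cons, mul_assoc, ih, ← mul_assoc, M2_PP, mul_assoc]

/-- all factors are nonzero -/
def Gd (N : ℕ) (c : ℂ) : Prop := ∀ t : ℕ, 1 ≤ t → t < N → PhC N c t ≠ 0

lemma dd_ne {N : ℕ} {c : ℂ} (h : Gd N c) {i : ℕ} (hi : i < N) : dd N c i ≠ 0 := by
  unfold dd
  rw [Finset.prod_ne_zero_iff]
  intro t ht
  rw [mem_Ioc] at ht
  exact h t (by omega) (by omega)

lemma PP_QQ {N : ℕ} {c : ℂ} (h : Gd N c) : PP N c * QQ N c = 1 := by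
  ext i j
  rw [PP_mul]
  unfold QQ
  by_cases hij : i = j
  · subst hij
    rw [if_pos rfl, Matrix.one_apply_eq, mul_inv_cancel₀ (dd_ne h (Fin.rev i).2)]
  · rw [if_neg, Matrix.one_apply_ne hij, mul_zero]
    intro h'
    exact hij (Fin.rev_injective h')

lemma trace_conj {N : ℕ} {A B P Q : Matrix (Fin N) (Fin N) ℂ} (h : A * P = P * B)
    (hPQ : P * Q = 1) : A.trace = B.trace := by
  have h1 : A = P * B * Q := by rw [← h, mul_assoc, hPQ, mul_one]
  have hQP : Q * P = 1 := mul_eq_one_comm.1 hPQ
  rw [h1, Matrix.trace_mul_comm, ← mul_assoc, hQP, one_mul]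

lemma trace_alt_not {N : ℕ} {c : ℂ} (h : Gd N c) (b : Bool) (l : List Vx) :
    (alt N c b l).trace = (alt N c (!b) l).trace :=
  trace_conj (alt_PP c l b) (PP_QQ h)

/-! ### Transposition -/

/-- the diagonal matrix of the products -/
noncomputable def DM (N : ℕ) (c : ℂ) : Matrix (Fin N) (Fin N) ℂ :=
  Matrix.diagonal fun i => dd N c i

lemma DM_inv {N : ℕ} {c : ℂ} (h : Gd N c) :
    DM N c * Matrix.diagonal (fun i : Fin N => (dd N c i)⁻¹) = 1 := by
  unfold DM
  rw [Matrix.diagonal_mul_diagonal, ← Matrix.diagonal_one]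
  congr 1
  funext i
  exact mul_inv_cancel₀ (dd_ne h i.2)

lemma M2_DM {N : ℕ} (c : ℂ) (b : Bool) (V : Vx) :
    (M2 N c b V)ᵀ * DM N c = DM N c * M2 N c (!b) V := by
  ext i j
  unfold DM
  rw [Matrix.mul_diagonal, Matrix.diagonal_mul, Matrix.transpose_apply]
  cases b
  · change (if j ≤ i then (∏ t ∈ Ioc (j : ℕ) i, PhC N c t) * cV N V j i else 0) * dd N c j =
      dd N c i * (if j ≤ i then cV N V j i else 0)
    by_cases h : j ≤ i
    · rw [if_pos h, if_pos h, ← dd_mul N c (Fin.le_def.1 h)]
      ring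
    · rw [if_neg h, if_neg h, zero_mul, mul_zero]
  · change (if i ≤ j then cV N V i j else 0) * dd N c j =
      dd N c i * (if i ≤ j then (∏ t ∈ Ioc (i : ℕ) j, PhC N c t) * cV N V i j else 0)
    by_cases h : i ≤ j
    · rw [if_pos h, if_pos h, ← dd_mul N c (Fin.le_def.1 h)]
      ring
    · rw [if_neg h, if_neg h, zero_mul, mul_zero]

lemma alt_DM {N : ℕ} (c : ℂ) (l : List Vx) : ∀ b : Bool,
    (alt N c b l)ᵀ * DM N c = DM N c * alt N c (not^[l.length] b) l.reverse := by
  induction l with
  | nil =>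
    intro b
    rw [alt_nil, List.reverse_nil, alt_nil, Matrix.transpose_one, one_mul, mul_one]
  | cons x l ih =>
    intro b
    rw [alt_cons, Matrix.transpose_mul, mul_assoc, M2_DM, ← mul_assoc, ih, List.reverse_cons,
      alt_append, List.length_reverse, List.length_cons, Function.iterate_succ_apply, mul_assoc,
      alt_cons, alt_nil, mul_one]
    congr 3
    rw [← Function.iterate_add_apply, not_iter_even ⟨l.length, rfl⟩]

/-! ### The trace -/

lemma TC_rot_gd {N : ℕ} {c : ℂ} (h : Gd N c) (x : Vx) (l : List Vx)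
    (hl : Even (x :: l).length) : TC N (l ++ [x]) c = TC N (x :: l) c := by
  unfold TC
  rw [trace_alt_not h, alt_append, alt_cons, alt_nil, mul_one, alt_cons, Bool.not_true,
    Matrix.trace_mul_comm]
  congr 3
  have h1 : not^[l.length] false = not^[(x :: l).length] true := by
    rw [List.length_cons, Function.iterate_succ_apply]
    rfl
  rw [h1, not_iter_even hl]

lemma TC_rev_gd {N : ℕ} {c : ℂ} (h : Gd N c) (l : List Vx) (hl : Even l.length) :
    TC N l.reverse c = TC N l c := by
  unfold TC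
  have h1 := alt_DM (N := N) c l true
  rw [not_iter_even hl] at h1
  rw [← trace_conj h1 (DM_inv h), Matrix.trace_transpose]

lemma cont_MBC (N : ℕ) (V : Vx) : Continuous fun c : ℂ => MBC N c V := by
  refine continuous_matrix fun i j => ?_
  unfold MBC PhC
  split_ifs
  · fun_prop
  · fun_prop

lemma cont_alt (N : ℕ) (l : List Vx) : ∀ b : Bool, Continuous fun c : ℂ => alt N c b l := by
  induction l with
  | nil =>
    intro b
    simp only [alt_nil]
    exact continuous_const
  | cons x l ih =>
    intro b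
    simp only [alt_cons]
    refine Continuous.matrix_mul ?_ (ih _)
    unfold M2
    cases b
    · exact cont_MBC N x
    · exact continuous_const

lemma cont_TC (N : ℕ) (l : List Vx) : Continuous (TC N l) :=
  (cont_alt N l true).matrix_trace

lemma dense_gd (N : ℕ) : Dense {c : ℂ | Gd N c} := by
  have h1 : ({c : ℂ | Gd N c}ᶜ).Finite := by
    refine Set.Finite.subset ((range N).image
      fun t : ℕ => (2 * Real.cos (2 * π * t / N) : ℂ)).finite_toSet ?_
    intro c hc
    have hc' : ¬ Gd N c := hc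
    unfold Gd at hc'
    push Not at hc'
    obtain ⟨t, h1, h2, h3⟩ := hc'
    rw [Finset.coe_image]
    refine ⟨t, by simpa using h2, ?_⟩
    unfold PhC at h3
    rcases mul_eq_zero.1 h3 with h4 | h4
    · exfalso
      have hN : (0 : ℝ) < N := by
        have : 0 < N := by omega
        exact_mod_cast this
      have ht : (0 : ℝ) < t := by exact_mod_cast h1
      have htN : (t : ℝ) < N := by exact_mod_cast h2
      have h5 : Real.cos (2 * π * t / N) = 1 := by
        have h6 : (2 - 2 * Real.cos (2 * π * t / N) : ℝ) = 0 := by exact_mod_cast h4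
        linarith
      have h7 : 2 * π * t / N = 0 := by
        refine (Real.cos_eq_one_iff_of_lt_of_lt ?_ ?_).1 h5
        · have : 0 ≤ 2 * π * t / N := by positivity
          have := Real.pi_pos
          linarith
        · rw [div_lt_iff₀ hN]
          have := Real.pi_pos
          nlinarith
      have h8 : 0 < 2 * π * t / N := by positivity
      linarith
    · exact (sub_eq_zero.1 h4).symm
  have h2 := h1.countable.dense_compl ℂ
  rwa [compl_compl] at h2

/-- **The trace is invariant under rotations and reflections of the ring.** -/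
theorem TC_deq {N : ℕ} {l l' : List Vx} (hl : Even l.length) (h : DEq l l') (c : ℂ) :
    TC N l' c = TC N l c := by
  have h1 : TC N l' = TC N l := by
    refine Continuous.ext_on (dense_gd N) (cont_TC N l') (cont_TC N l) ?_
    intro c hc
    exact deq_ind (fun l => TC N l c) (fun x l hl => TC_rot_gd hc x l hl)
      (fun l hl => TC_rev_gd hc l hl) hl h
  rw [h1]

theorem TV_deq {N : ℕ} {ls ls' : List (Vx × Vx)} (h : DEq (fl ls) (fl ls')) (χ : ℂ) :
    TV N ls' χ = TV N ls χ := by
  rw [TV_eq, TV_eq]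
  exact TC_deq (by rw [fl_length]; exact even_two_mul _) h _

end Pool.Agent.J6H61.VC
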